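import Pool.Agent.H332.HT.Defs

set_option autoImplicit false

namespace Pool.Agent.H548.HT

open Pool.Agent.H332.HT Topology

theorem comb (htc : S_TC) {K : Set V3} (hK : HB K) {x : V3} (hx : x ∈ K) {v : V2} {l l₀ : ℝ}
    (hl : ((v, l) : V3) ∈ T K x) (hl₀ : ((v, l₀) : V3) ∈ C K x) {s : ℝ} (hs : 0 < s) (hs1 : s < 1) :
    ((v, (1 - s) * l + s * l₀) : V3) ∈ C K x := by
  obtain ⟨_, h2, h3, _, h5, _, _⟩ := htc K hK x hx
  have e1 := h2 _ hl (1 - s) (by linarith)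
  have e2 := h3 _ hl₀ s hs
  have e3 := h5 _ e1 _ e2
  have : ((1 - s) • ((v, l) : V3) + s • ((v, l₀) : V3)) = ((v, (1 - s) * l + s * l₀) : V3) := by
    refine Prod.ext ?_ ?_
    · change (1 - s) • v + s • v = v
      rw [← add_smul, sub_add_cancel, one_smul]
    · rfl
  rw [this] at e3
  exact e3

theorem sep (htc : S_TC) {K : Set V3} (hK : HB K) {x y : V3} (hx : x ∈ K) (hy : y ∈ K) {v : V2}
    {k l k₀ l₀ : ℝ} (hk : ((v, k) : V3) ∈ T K y) (hl : ((v, l) : V3) ∈ T K x) (hlk : l < k)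
    (hk₀ : ((v, k₀) : V3) ∈ C K y) (hl₀ : ((v, l₀) : V3) ∈ C K x) :
    ∃ k' l' : ℝ, ((v, k') : V3) ∈ C K y ∧ ((v, l') : V3) ∈ C K x ∧ l' < k' := by
  have hδ : 0 < k - l := by linarith
  have hD : 0 ≤ |l₀ - k₀| := abs_nonneg _
  have hden : 0 < 2 * (|l₀ - k₀| + (k - l)) := by linarith
  have hs0 : 0 < (k - l) / (2 * (|l₀ - k₀| + (k - l))) := div_pos hδ hden
  have hs1 : (k - l) / (2 * (|l₀ - k₀| + (k - l))) < 1 := by
    rw [div_lt_one hden]; linarith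
  have hsm : (k - l) / (2 * (|l₀ - k₀| + (k - l))) * (|l₀ - k₀| + (k - l)) = (k - l) / 2 := by
    field_simp
  generalize (k - l) / (2 * (|l₀ - k₀| + (k - l))) = s at hs0 hs1 hsm
  refine ⟨(1 - s) * k + s * k₀, (1 - s) * l + s * l₀, comb htc hK hy hk hk₀ hs0 hs1,
    comb htc hK hx hl hl₀ hs0 hs1, ?_⟩
  have h1 : s * (l₀ - k₀) ≤ s * |l₀ - k₀| := mul_le_mul_of_nonneg_left (le_abs_self _) hs0.le
  nlinarith [h1, hsm, hδ]

theorem hel (htc : S_TC) (hi : S_itv) (hc : S_Cop) : S_hel := by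
  intro K hK Y hYK hY hne v hv
  by_cases h2 : ∃ x ∈ Y, ∃ y ∈ Y, ∀ k l : ℝ, ((v, k) : V3) ∈ T K y → ((v, l) : V3) ∈ T K x → k ≤ l
  · exact Or.inr h2
  left
  have hop : ∀ k : ℝ, IsOpen {x : V3 | ((v, k) : V3) ∈ C K x} := by
    intro k
    exact (hc K).preimage (f := fun x : V3 => (x, ((v, k) : V3)))
      (Continuous.prodMk continuous_id continuous_const)
  have hpair : ∀ x ∈ Y, ∀ y ∈ Y, ∃ k' l' : ℝ, ((v, k') : V3) ∈ C K y ∧ ((v, l') : V3) ∈ C K x ∧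
      l' < k' := by
    intro x hx y hy
    by_contra hcon
    apply h2
    refine ⟨x, hx, y, hy, ?_⟩
    intro k l hk hl
    by_contra hkl
    obtain ⟨k₀, hk₀⟩ := hv y hy
    obtain ⟨l₀, hl₀⟩ := hv x hx
    exact hcon (sep htc hK (hYK hx) (hYK hy) hk hl (not_le.mp hkl) hk₀ hl₀)
  -- first induction
  have first : ∀ y ∈ Y, ∃ m : ℝ, ∃ V : Set V3, IsOpen V ∧ y ∈ V ∧
      (∀ x ∈ Y, ∃ l : ℝ, ((v, l) : V3) ∈ C K x ∧ l < m) ∧
      (∀ y' ∈ V, ∃ k : ℝ, ((v, k) : V3) ∈ C K y' ∧ m < k) := by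
    intro y hy
    refine hY.induction_on (p := fun S => ∃ m : ℝ, ∃ V : Set V3, IsOpen V ∧ y ∈ V ∧
      (∀ x ∈ S, ∃ l : ℝ, ((v, l) : V3) ∈ C K x ∧ l < m) ∧
      (∀ y' ∈ V, ∃ k : ℝ, ((v, k) : V3) ∈ C K y' ∧ m < k)) ?_ ?_ ?_ ?_
    · obtain ⟨k₀, hk₀⟩ := hv y hy
      refine ⟨k₀ - 1, {x : V3 | ((v, k₀) : V3) ∈ C K x}, hop k₀, hk₀, ?_, ?_⟩
      · intro x hx; exact absurd hx (Set.notMem_empty x)
      · intro y' hy'; exact ⟨k₀, hy', by linarith⟩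
    · rintro s t hst ⟨m, V, hV, hyV, hA, hB⟩
      exact ⟨m, V, hV, hyV, fun x hx => hA x (hst hx), hB⟩
    · rintro s t ⟨m, V, hV, hyV, hA, hB⟩ ⟨m', V', hV', hyV', hA', hB'⟩
      refine ⟨max m m', V ∩ V', hV.inter hV', ⟨hyV, hyV'⟩, ?_, ?_⟩
      · rintro x (hx | hx)
        · obtain ⟨l, hl, hlm⟩ := hA x hx
          exact ⟨l, hl, lt_of_lt_of_le hlm (le_max_left _ _)⟩
        · obtain ⟨l, hl, hlm⟩ := hA' x hx
          exact ⟨l, hl, lt_of_lt_of_le hlm (le_max_right _ _)⟩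
      · rintro y' ⟨h, h'⟩
        rcases le_total m m' with hmm | hmm
        · rw [max_eq_right hmm]; exact hB' y' h'
        · rw [max_eq_left hmm]; exact hB y' h
    · intro x hx
      obtain ⟨k', l', hk', hl', hlk⟩ := hpair x hx y hy
      refine ⟨{x : V3 | ((v, l') : V3) ∈ C K x}, mem_nhdsWithin_of_mem_nhds ((hop l').mem_nhds hl'),
        (l' + k') / 2, {x : V3 | ((v, k') : V3) ∈ C K x}, hop k', hk', ?_, ?_⟩
      · intro x' hx'; exact ⟨l', hx', by linarith⟩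
      · intro y' hy'; exact ⟨k', hy', by linarith⟩
  have second : ∃ m : ℝ, (∀ x ∈ Y, ∃ l : ℝ, ((v, l) : V3) ∈ C K x ∧ l < m) ∧
      (∀ y ∈ Y, ∃ k : ℝ, ((v, k) : V3) ∈ C K y ∧ m < k) := by
    refine hY.induction_on (p := fun S => ∃ m : ℝ,
      (∀ x ∈ Y, ∃ l : ℝ, ((v, l) : V3) ∈ C K x ∧ l < m) ∧
      (∀ y ∈ S, ∃ k : ℝ, ((v, k) : V3) ∈ C K y ∧ m < k)) ?_ ?_ ?_ ?_
    · obtain ⟨y, hy⟩ := hne
      obtain ⟨m, V, _, _, hA, _⟩ := first y hy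
      exact ⟨m, hA, fun y' hy' => absurd hy' (Set.notMem_empty y')⟩
    · rintro s t hst ⟨m, hA, hB⟩
      exact ⟨m, hA, fun y hy => hB y (hst hy)⟩
    · rintro s t ⟨m, hA, hB⟩ ⟨m', hA', hB'⟩
      refine ⟨min m m', ?_, ?_⟩
      · rcases le_total m m' with hmm | hmm
        · rw [min_eq_left hmm]; exact hA
        · rw [min_eq_right hmm]; exact hA'
      · rintro y (hy | hy)
        · obtain ⟨k, hk, hkm⟩ := hB y hy
          exact ⟨k, hk, lt_of_le_of_lt (min_le_left _ _) hkm⟩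
        · obtain ⟨k, hk, hkm⟩ := hB' y hy
          exact ⟨k, hk, lt_of_le_of_lt (min_le_right _ _) hkm⟩
    · intro y hy
      obtain ⟨m, V, hV, hyV, hA, hB⟩ := first y hy
      exact ⟨V, mem_nhdsWithin_of_mem_nhds (hV.mem_nhds hyV), m, hA, hB⟩
  obtain ⟨m, hA, hB⟩ := second
  refine ⟨m, fun x hx => ?_⟩
  obtain ⟨l, hl, hlm⟩ := hA x hx
  obtain ⟨k, hk, hkm⟩ := hB x hx
  have hT := (htc K hK x (hYK hx)).1
  exact hi K hK x (hYK hx) v l l m k hl (hT _ hl) (hT _ hk) hlm hkm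

end Pool.Agent.H548.HT
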